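import Pool.Agent.Lib.MP_162bbe_gt.Ad.Unip

/-! Automorphisms of a semisimple algebra at the compact places. -/

namespace Pool.Agent.Lib.MP_162bbe_gt.Ad

open Module LieAlgebra Polynomial Matrix
open scoped ComplexOrder

variable {k L : Type} [Field k] [CharZero k] [LieRing L] [LieAlgebra k L] [Module.Finite k L]
  [IsKilling k L]

theorem ortho : ∃ (β : Basis (Fin (finrank k L)) k L) (d : Fin (finrank k L) → k), (∀ j, d j ≠ 0) ∧
    ∀ x y, killingForm k L x y = ∑ j, β.repr x j * (d j * β.repr y j) := by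
  have : Invertible (2 : k) := invertibleOfNonzero two_ne_zero
  obtain ⟨β, hβ⟩ := LinearMap.BilinForm.exists_orthogonal_basis (B := killingForm k L)
    (LieModule.traceForm_isSymm k L L)
  refine ⟨β, fun j => killingForm k L (β j) (β j), hβ.not_isOrtho_basis_self_of_separatingLeft
    (IsKilling.killingForm_nondegenerate k L).1, fun x y => ?_⟩
  conv_lhs => rw [← β.sum_repr x, ← β.sum_repr y]
  rw [LinearMap.map_sum₂]
  refine Finset.sum_congr rfl fun j _ => ?_
  rw [map_sum, Finset.sum_eq_single j (fun i _ h => by simp [LinearMap.isOrthoᵢ_def.1 hβ j i h.symm])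
    (by simp)]
  simp only [map_smul, LinearMap.smul_apply, smul_eq_mul]
  ring

theorem defn {s : k →+* ℂ} (hs : ∀ x, s (killingForm k L x x) ≤ 0) {x : L}
    (hx : killingForm k L x x = 0) : x = 0 := by
  obtain ⟨β, d, h0, h⟩ := ortho (k := k) (L := L)
  have h1 := congrArg s (h x x)
  rw [hx, map_zero, map_sum, eq_comm, Finset.sum_eq_zero_iff_of_nonpos fun j _ => by
    simpa [h, Finsupp.single_apply, mul_comm] using hs (β.repr x j • β j)] at h1
  refine β.ext_elem fun j => ?_
  simpa [h0 j] using h1 j (Finset.mem_univ j)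

theorem circ {s : k →+* ℂ} (hs : ∀ x, s (killingForm k L x x) ≤ 0) {f : End k L} (hu : IsUnit f)
    (hf : ∀ x y, f ⁅x, y⁆ = ⁅f x, f y⁆) {z : ℂ} (hz : eval₂ s z f.charpoly = 0) : ‖z‖ = 1 := by
  obtain ⟨β, d, h0, h⟩ := ortho (k := k) (L := L)
  obtain ⟨u, rfl⟩ := hu
  have h1 : ∀ w, ad k L (u.1 w) = u * ad k L w * u⁻¹ := fun w => by
    rw [Units.eq_mul_inv_iff_mul_eq]
    exact LinearMap.ext fun v => (hf w v).symm
  have h2 : ∀ x y, killingForm k L (u.1 x) (u.1 y) = killingForm k L x y := fun x y => by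
    rw [killingForm_apply_apply, killingForm_apply_apply, ← End.mul_eq_comp, ← End.mul_eq_comp, h1,
      h1, ← mul_assoc, ← mul_assoc, Units.inv_mul_cancel_right, LinearMap.trace_mul_comm,
      ← mul_assoc, ← mul_assoc, Units.inv_mul, one_mul]
  have h3 : ∀ j c, s (c * (d j * c)) ≤ 0 := fun j c => by
    simpa [h, Finsupp.single_apply, mul_comm] using hs (c • β j)
  have h4 : ∀ j, s (d j) < 0 := fun j =>
    lt_of_le_of_ne (by simpa using h3 j 1) ((map_ne_zero s).2 (h0 j))
  rw [eval₂_eq_eval_map, ← LinearMap.charpoly_toMatrix _ β, ← Matrix.charpoly_map, eval_charpoly,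
    ← exists_mulVec_eq_zero_iff] at hz
  obtain ⟨v, v0, hv⟩ := hz
  obtain ⟨j₀, hj₀⟩ := Function.ne_iff.1 v0
  have h5 : ∀ c, star (s c) = s c := fun c => by
    have a1 := (Complex.le_def.1 (h3 j₀ c)).2
    have a2 := (Complex.le_def.1 (h3 j₀ (c + 1))).2
    obtain ⟨a3, a4⟩ := Complex.lt_def.1 (h4 j₀)
    simp only [map_mul, map_add, map_one, Complex.mul_im, Complex.mul_re, Complex.add_re,
      Complex.add_im, Complex.one_re, Complex.one_im, Complex.zero_im, Complex.zero_re] at *
    rw [a4] at a1 a2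
    exact Complex.conj_eq_iff_im.2 (mul_left_cancel₀ a3.ne (by linarith))
  set M := (LinearMap.toMatrix β β u.1).map s with hM
  have h6 : Mᴴ * diagonal (fun j => s (d j)) * M = diagonal fun j => s (d j) := by
    ext a b
    have h7 := congrArg s (h2 (β a) (β b))
    rw [h, h] at h7
    rw [mul_apply]
    simp only [mul_diagonal, conjTranspose_apply, hM, map_apply, h5, LinearMap.toMatrix_apply]
    by_cases hab : a = b <;> simpa [Finsupp.single_apply, hab, mul_assoc] using h7
  have h7 : M *ᵥ v = z • v := by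
    rw [sub_mulVec, sub_eq_zero, scalar_apply, ← smul_one_eq_diagonal, smul_mulVec,
      one_mulVec] at hv
    exact hv.symm
  have h8 : star v ⬝ᵥ diagonal (fun j => s (d j)) *ᵥ v ≠ 0 := by
    refine (Finset.sum_neg' (fun j _ => ?_) ⟨j₀, Finset.mem_univ _, ?_⟩).ne
    · rw [mulVec_diagonal, mul_left_comm]
      exact mul_nonpos_of_nonpos_of_nonneg (h4 j).le (star_mul_self_nonneg _)
    · rw [mulVec_diagonal, mul_left_comm]
      exact mul_neg_of_neg_of_pos (h4 j₀) (star_mul_self_pos (IsRegular.of_ne_zero hj₀))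
  have h9 : star (M *ᵥ v) ⬝ᵥ diagonal (fun j => s (d j)) *ᵥ M *ᵥ v =
      star v ⬝ᵥ diagonal (fun j => s (d j)) *ᵥ v := by
    rw [star_mulVec, ← dotProduct_mulVec, mulVec_mulVec, mulVec_mulVec, h6]
  rw [h7, star_smul, smul_dotProduct, mulVec_smul, dotProduct_smul, smul_smul, smul_eq_mul,
    mul_left_eq_self₀, or_iff_left h8] at h9
  have h10 := congrArg norm h9
  rw [norm_mul, norm_star, norm_one] at h10
  exact (pow_eq_one_iff_of_nonneg (norm_nonneg _) two_ne_zero).1 (by rw [sq, h10])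

end Pool.Agent.Lib.MP_162bbe_gt.Ad
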