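import Mathlib

/-! Adjoint representations of semisimple groups and arithmetic subgroups. -/

namespace Pool.Agent.Lib.MP_162bbe_gt.Ad

open Module NumberField IntermediateField
open scoped ComplexOrder

/-- The matrix of an endomorphism in a fixed basis. -/
noncomputable def mat {V : Type} [AddCommGroup V] [Module ℂ V] [Module.Finite ℂ V] (f : End ℂ V) :
    Matrix (Fin (finrank ℂ V)) (Fin (finrank ℂ V)) ℂ :=
  LinearMap.toMatrix (finBasis ℂ V) (finBasis ℂ V) f

/-- `h` is a non-compact real form of `V`, or `V` itself, and `G` acts continuously on `V` by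
automorphisms. -/
structure Fac {V G : Type} [LieRing V] [LieAlgebra ℂ V] [Module.Finite ℂ V] [Group G]
    [TopologicalSpace G] (h : Submodule ℝ V) (π : G →* End ℂ V) : Prop where
  lie : ∀ X ∈ h, ∀ Y ∈ h, ⁅X, Y⁆ ∈ h
  span : Submodule.span ℂ (h : Set V) = ⊤
  nc : ∃ X ∈ h, ¬ killingForm ℂ V X X ≤ 0
  cont : Continuous fun a => mat (π a)
  aut : ∀ a X Y, π a ⁅X, Y⁆ = ⁅π a X, π a Y⁆

variable {r : ℕ} {g : Fin r → Type} [∀ i, LieRing (g i)] [∀ i, LieAlgebra ℂ (g i)]
  {G : Type} [Group G]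

/-- `π` is the adjoint representation of a group with finite centre whose Lie algebra is the
product of the non-compact real algebras `h i`. -/
structure Adj [∀ i, Module.Finite ℂ (g i)] [TopologicalSpace G] (h : ∀ i, Submodule ℝ (g i))
    (π : ∀ i, G →* End ℂ (g i)) : Prop where
  fac : ∀ i, Fac (h i) (π i)
  fin : {a | ∀ i, π i a = 1}.Finite
  exp : ∀ X : ∀ i, h i, ∃ a, ∀ i, mat (π i a) = NormedSpace.exp (mat (LieAlgebra.ad ℂ (g i) (X i)))

/-- `L` is a form over the number field `k` of the algebras `h i`, compact at the other places, and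
a subgroup of finite index of `Γ` preserves a finitely generated subgroup that spans `L`. -/
structure Arith (h : ∀ i, Submodule ℝ (g i)) (π : ∀ i, G →* End ℂ (g i)) (Γ : Subgroup G)
    (k L : Type) [Field k] [LieRing L] [LieAlgebra k L] where
  σ : Fin r → k →+* ℂ
  φ : ∀ i, L →ₛₗ[σ i] g i
  Λ : AddSubgroup L
  Δ : Subgroup Γ
  lie : ∀ i x y, φ i ⁅x, y⁆ = ⁅φ i x, φ i y⁆
  mem : ∀ i x, φ i x ∈ h i
  dim : ∀ i, finrank k L = finrank ℂ (g i)
  span : ∀ i, Submodule.span ℂ (Set.range (φ i)) = ⊤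
  neg : ∀ s : k →+* ℂ, (∀ i, InfinitePlace.mk s ≠ InfinitePlace.mk (σ i)) →
    ∀ x, s (killingForm k L x x) ≤ 0
  fg : Λ.FG
  full : Submodule.span k (Λ : Set L) = ⊤
  idx : Δ.FiniteIndex
  inv : ∀ δ ∈ Δ, ∀ x ∈ Λ, ∃ y ∈ Λ, ∀ i, π i δ.1 (φ i x) = φ i y

/-- The compositum of the images of the embeddings `τ l` has degree at most
`C * (d / log (3 * d) ^ a) ^ j`. -/
def Few {k : Type} [Field k] [CharZero k] (a : ℕ) (C : ℝ) (d j : ℕ) (τ : Fin j → k →+* ℂ) : Prop :=
  (finrank ℚ ↥(⨆ l, (τ l).toRatAlgHom.fieldRange) : ℝ) * (Real.log (3 * d) ^ a) ^ j ≤ C * d ^ j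

/-- The normal closure of `F` has a solvable Galois group, or degree at most `[F : ℚ] ^ m`, or
each subfield `k` such that all extensions to `F` of the restriction of some `s ∈ S` lie in `S` has
`j ≤ m` distinct embeddings with a small compositum. -/
def Small (m a : ℕ) (C : ℝ) (F : Type) [Field F] [NumberField F] (S : Set (F →+* ℂ)) : Prop :=
  Group.IsSolvable (normalClosure ℚ F ℂ ≃ₐ[ℚ] normalClosure ℚ F ℂ) ∨
    finrank ℚ (normalClosure ℚ F ℂ) ≤ finrank ℚ F ^ m ∨
    ∀ s ∈ S, ∀ k : IntermediateField ℚ F, (∀ t : F →+* ℂ, (∀ x ∈ k, t x = s x) → t ∈ S) →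
      ∃ (j : ℕ) (τ : Fin j → k →+* ℂ), 1 ≤ j ∧ j ≤ m ∧ Function.Injective τ ∧
        Few a C (finrank ℚ F) j τ

/-- `Γ` is arithmetic and its field of definition satisfies `Small` for the non-compact places. -/
def SmallArith (h : ∀ i, Submodule ℝ (g i)) (π : ∀ i, G →* End ℂ (g i)) (m a : ℕ) (C : ℝ)
    (Γ : Subgroup G) : Prop :=
  ∃ (k L : Type) (_ : Field k) (_ : NumberField k) (_ : LieRing L) (_ : LieAlgebra k L)
    (X : Arith h π Γ k L), Small m a C k {s | ∃ i, InfinitePlace.mk s = InfinitePlace.mk (X.σ i)}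

/-- A uniformly discrete family of subgroups. -/
def UnifDiscrete [TopologicalSpace G] (F : Set (Subgroup G)) : Prop :=
  ∃ U ∈ nhds (1 : G), ∀ Γ ∈ F, ∀ a : G, ∀ γ ∈ Γ, a * γ * a⁻¹ ∈ U → γ = 1

end Pool.Agent.Lib.MP_162bbe_gt.Ad
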