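import Pool.Agent.Lib.MP_162bbe_gt.Ad.Defs
import Pool.Agent.Lib.MP_162bbe_gt.SU.Bor

/-! Endomorphisms that commute with a cocompact subgroup are scalar. -/

namespace Pool.Agent.Lib.MP_162bbe_gt.Ad

open Module NormedSpace LieAlgebra
open scoped ComplexOrder

section mat

variable {V : Type} [AddCommGroup V] [Module ℂ V] [Module.Finite ℂ V]

/-- `mat` as an algebra isomorphism. -/
noncomputable def matE (V : Type) [AddCommGroup V] [Module ℂ V] [Module.Finite ℂ V] :
    End ℂ V ≃ₐ[ℂ] Matrix (Fin (finrank ℂ V)) (Fin (finrank ℂ V)) ℂ :=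
  LinearMap.toMatrixAlgEquiv (finBasis ℂ V)

theorem matE_apply (f : End ℂ V) : matE V f = mat f := rfl

theorem mat_charpoly (f : End ℂ V) : (mat f).charpoly = f.charpoly :=
  LinearMap.charpoly_toMatrix f _

/-- `mat ∘ π` as a homomorphism. -/
noncomputable def matH {G : Type} [Group G] (π : G →* End ℂ V) :
    G →* Matrix (Fin (finrank ℂ V)) (Fin (finrank ℂ V)) ℂ :=
  (matE V).toAlgHom.toMonoidHom.comp π

theorem matH_apply {G : Type} [Group G] (π : G →* End ℂ V) (a : G) : matH π a = mat (π a) := rfl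

end mat

theorem exp_alg {n : ℕ} (c : ℂ) :
    exp (algebraMap ℂ (Matrix (Fin n) (Fin n) ℂ) c) = algebraMap ℂ _ (Complex.exp c) := by
  rw [Complex.exp_eq_exp_ℂ]
  symm
  exact open scoped Matrix.Norms.Operator in algebraMap_exp_comm _

theorem exp_eigen {n : ℕ} {A N : Matrix (Fin n) (Fin n) ℂ} {c : ℂ} (h : A * N = N * A + c • N) :
    exp A * N = Complex.exp c • (N * exp A) := by
  have h2 : N * exp (A + algebraMap ℂ _ c) = exp A * N :=
    open scoped Matrix.Norms.Operator in SemiconjBy.exp_right (show N * _ = A * N by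
      rw [h, mul_add, ← Algebra.commutes, ← Algebra.smul_def])
  rw [← h2, Matrix.exp_add_of_commute _ _ (Algebra.commute_algebraMap_right _ _), exp_alg,
    ← mul_assoc, ← Algebra.commutes, ← Algebra.smul_def]

theorem exp_vec {V : Type} [AddCommGroup V] [Module ℂ V] [Module.Finite ℂ V] {f T : End ℂ V}
    (hT : mat T = exp (mat f)) {v : V} {c : ℂ} (h : f v = c • v) : T v = Complex.exp c • v := by
  by_cases h0 : v = 0
  · simp [h0]
  obtain ⟨l, hl⟩ := Projective.exists_dual_eq_one ℂ h0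
  have h2 : matE V (l.smulRight v) * exp (algebraMap ℂ _ c) = exp (mat f) * matE V (l.smulRight v) :=
    open scoped Matrix.Norms.Operator in SemiconjBy.exp_right (show _ * _ = matE V f * _ by
      rw [← Algebra.commutes, ← Algebra.smul_def, ← map_smul, ← map_mul]
      exact congrArg _ (LinearMap.ext fun w => by simp [h, smul_comm c]))
  rw [exp_alg, ← hT, ← matE_apply, ← Algebra.commutes, ← Algebra.smul_def, ← map_smul,
    ← map_mul] at h2
  simpa [hl] using (LinearMap.congr_fun ((matE V).injective h2) v).symm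

section den

variable {n : ℕ} {G : Type} [Group G] (π : G →* Matrix (Fin n) (Fin n) ℂ)

/-- The matrices with a bounded orbit. -/
def bdd : Submodule ℂ (Matrix (Fin n) (Fin n) ℂ) where
  carrier := {e | ∀ i j, ∃ C : ℝ, ∀ a, ‖(π a * e * π a⁻¹) i j‖ < C}
  zero_mem' := fun _ _ => ⟨1, fun a => by simp⟩
  add_mem' := fun {e f} he hf i j => by
    obtain ⟨C, hC⟩ := he i j
    obtain ⟨D, hD⟩ := hf i j
    refine ⟨C + D, fun a => ?_⟩
    rw [mul_add, add_mul, Matrix.add_apply]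
    exact (norm_add_le _ _).trans_lt (add_lt_add (hC a) (hD a))
  smul_mem' := fun c e he i j => by
    obtain ⟨C, hC⟩ := he i j
    refine ⟨‖c‖ * C + 1, fun a => ?_⟩
    rw [mul_smul_comm, smul_mul_assoc, Matrix.smul_apply, norm_smul]
    exact (mul_le_mul_of_nonneg_left (hC a).le (norm_nonneg c)).trans_lt (lt_add_one _)

variable {π} {e A N : Matrix (Fin n) (Fin n) ℂ}

theorem bdd_conj (he : e ∈ bdd π) (b : G) : π b * e * π b⁻¹ ∈ bdd π := fun i j =>
  (he i j).imp fun C hC a => by simpa only [_root_.mul_inv_rev, map_mul, mul_assoc] using hC (a * b)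

theorem inv_exp {a : G} (h : π a = exp A) : π a⁻¹ = exp (-A) := by
  have h1 : exp A * exp (-A) = 1 := by
    rw [← Matrix.exp_add_of_commute _ _ (Commute.refl A).neg_right, add_neg_cancel, exp_zero]
  rw [← mul_one (π a⁻¹), ← h1, ← h, ← mul_assoc, ← map_mul, inv_mul_cancel, map_one, one_mul]

open scoped Matrix.Norms.Operator in
theorem bdd_lie (he : e ∈ bdd π) (hA : ∀ t : ℝ, ∃ a, π a = exp (t • A)) :
    A * e - e * A ∈ bdd π := by
  have h1 : HasDerivAt (fun t : ℝ => exp (t • A) * e * exp (t • -A)) (A * e - e * A) 0 :=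
    (((hasDerivAt_exp_smul_const (𝕂 := ℝ) A 0).mul_const e).mul
      (hasDerivAt_exp_smul_const (𝕂 := ℝ) (-A) 0)).congr_deriv (by simp [sub_eq_add_neg])
  have h2 : ∀ t : ℝ, exp (t • A) * e * exp (t • -A) ∈ bdd π := fun t => by
    obtain ⟨a, ha⟩ := hA t
    rw [smul_neg, ← inv_exp ha, ← ha]
    exact bdd_conj he a
  refine (bdd π).closed_of_finiteDimensional.mem_of_tendsto (hasDerivAt_iff_tendsto_slope.1 h1)
    (Filter.Eventually.of_forall fun t => ?_)
  rw [slope_def_module]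
  exact (bdd π).smul_of_tower_mem _ (sub_mem (h2 t) (h2 0))

theorem unif {E ι : Type} [NormedAddCommGroup E] [NormedSpace ℂ E] [FiniteDimensional ℂ E]
    (S : Submodule ℂ E) (T : ι → E →ₗ[ℂ] E) (h : ∀ e ∈ S, ∃ C, ∀ i, ‖T i e‖ ≤ C) :
    ∃ C : ℝ, 0 < C ∧ ∀ e ∈ S, ∀ i, ‖T i e‖ ≤ C * ‖e‖ := by
  have : CompleteSpace S := FiniteDimensional.complete ℂ _
  obtain ⟨C, hC⟩ := banach_steinhaus (g := fun i => LinearMap.toContinuousLinearMap
    ((T i).comp S.subtype)) fun e => h e.1 e.2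
  refine ⟨max C 1, by positivity, fun e he a => ?_⟩
  exact (ContinuousLinearMap.le_of_opNorm_le _ (hC a) ⟨e, he⟩).trans
    (mul_le_mul_of_nonneg_right (le_max_left _ _) (norm_nonneg _))

open scoped Matrix.Norms.Operator in
theorem bdd_unif : ∃ C : ℝ, 0 < C ∧ ∀ e ∈ bdd π, ∀ a, ‖π a * e * π a⁻¹‖ ≤ C * ‖e‖ :=
  unif (bdd π) (fun a : G => (LinearMap.mulRight ℂ (π a⁻¹)).comp (LinearMap.mulLeft ℂ (π a)))
    fun e he => by
      choose C hC using he
      refine ⟨∑ i, ∑ j, C i j * ‖Matrix.single i j (1 : ℂ)‖, fun a => ?_⟩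
      change ‖π a * e * π a⁻¹‖ ≤ _
      rw [Matrix.matrix_eq_sum_single (π a * e * π a⁻¹)]
      refine norm_sum_le_of_le _ fun i _ => norm_sum_le_of_le _ fun j _ => ?_
      rw [← mul_one ((π a * e * π a⁻¹) i j), ← smul_eq_mul, ← Matrix.smul_single, norm_smul]
      exact mul_le_mul_of_nonneg_right (hC i j a).le (norm_nonneg _)

open scoped Matrix.Norms.Operator in
theorem bdd_comm (he : e ∈ bdd π) (hA : ∀ t : ℝ, ∃ a, π a = exp (t • A)) {c : ℂ} (hc : c.re ≠ 0)
    (h : A * N = N * A + c • N) (hN : N * e - e * N ∈ bdd π) : N * e = e * N := by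
  obtain ⟨C, hC0, hC⟩ := bdd_unif (π := π)
  rw [← sub_eq_zero, ← norm_eq_zero]
  refine le_antisymm (le_of_forall_pos_le_add fun ε hε => ?_) (norm_nonneg _)
  have hK : 0 < C * (2 * ‖N‖ * (C * ‖e‖)) + 1 := by positivity
  obtain ⟨t, ht⟩ : ∃ t : ℝ, Real.exp (t * c.re) = ε / (C * (2 * ‖N‖ * (C * ‖e‖)) + 1) :=
    ⟨_, by rw [div_mul_cancel₀ _ hc, Real.exp_log (div_pos hε hK)]⟩
  obtain ⟨a, ha⟩ := hA t
  have h1 : π a * N = Complex.exp (t * c) • (N * π a) := by
    rw [ha]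
    refine exp_eigen ?_
    rw [smul_mul_assoc, h, smul_add, mul_smul_comm, mul_smul, Complex.coe_smul]
  have i1 : π a⁻¹ * π a = 1 := by rw [← map_mul, inv_mul_cancel, map_one]
  have i2 : π a * π a⁻¹ = 1 := by rw [← map_mul, mul_inv_cancel, map_one]
  have h2 : N * π a⁻¹ = Complex.exp (t * c) • (π a⁻¹ * N) := by
    rw [← one_mul (N * _), ← i1, mul_assoc, ← mul_assoc (π a), h1, smul_mul_assoc, mul_assoc, i2,
      mul_one, mul_smul_comm]
  have h3 : π a * (N * e - e * N) * π a⁻¹ = Complex.exp (t * c) •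
      (N * (π a * e * π a⁻¹) - π a * e * π a⁻¹ * N) := by
    rw [mul_sub, sub_mul, ← mul_assoc, h1, mul_assoc _ (e * N), mul_assoc e, h2]
    simp only [smul_sub, smul_mul_assoc, mul_smul_comm, mul_assoc]
  have h4 := hC _ (bdd_conj hN a) a⁻¹
  rw [inv_inv, ← mul_assoc, ← mul_assoc, i1, one_mul, mul_assoc, i1, mul_one, h3, norm_smul,
    Complex.norm_exp, Complex.re_ofReal_mul, ht] at h4
  have h5 : ‖N * (π a * e * π a⁻¹) - π a * e * π a⁻¹ * N‖ ≤ 2 * ‖N‖ * (C * ‖e‖) := by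
    have h6 := hC e he a
    have h7 := norm_mul_le N (π a * e * π a⁻¹)
    have h8 := norm_mul_le (π a * e * π a⁻¹) N
    have h9 := mul_le_mul_of_nonneg_left h6 (norm_nonneg N)
    linarith [norm_sub_le (N * (π a * e * π a⁻¹)) (π a * e * π a⁻¹ * N)]
  refine h4.trans ?_
  rw [zero_add, mul_left_comm, div_mul_eq_mul_div, div_le_iff₀ hK]
  exact mul_le_mul_of_nonneg_left ((mul_le_mul_of_nonneg_left h5 hC0.le).trans (by linarith)) hε.le

end den

theorem exists_eig {g : Type} [LieRing g] [LieAlgebra ℂ g] [Module.Finite ℂ g] {X : g}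
    (h : ¬ killingForm ℂ g X X ≤ 0) : ∃ (c : ℂ) (Y : g), c.re ≠ 0 ∧ Y ≠ 0 ∧ ⁅X, Y⁆ = c • Y := by
  by_contra! h0
  apply h
  rw [killingForm_apply_apply, ← End.mul_eq_comp, LinearMap.trace_eq_matrix_trace ℂ (finBasis ℂ g),
    Matrix.trace_eq_sum_roots_charpoly, LinearMap.charpoly_toMatrix]
  refine Multiset.sum_induction (· ≤ 0) _ (fun a b => add_nonpos) le_rfl fun z hz => ?_
  rw [Polynomial.mem_roots (LinearMap.charpoly_monic _).ne_zero,
    ← End.hasEigenvalue_iff_isRoot_charpoly, End.hasEigenvalue_iff_mem_spectrum, ← sq,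
    spectrum.map_pow_of_pos _ two_pos] at hz
  obtain ⟨c, hc, rfl⟩ := hz
  obtain ⟨Y, hY⟩ := (End.hasEigenvalue_iff_mem_spectrum.2 hc).exists_hasEigenvector
  have h1 : c.re = 0 := by_contra fun h1 => h0 c Y h1 hY.2 hY.apply_eq_smul
  simp [Complex.le_def, sq, h1, mul_self_nonneg]

theorem schur {g : Type} [LieRing g] [LieAlgebra ℂ g] [Module.Finite ℂ g] [IsSimple ℂ g]
    {e : End ℂ g} (h : ∀ X, ad ℂ g X * e = e * ad ℂ g X) : ∃ c : ℂ, e = c • 1 := by
  have : Nontrivial g := by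
    by_contra h0
    have := not_nontrivial_iff_subsingleton.1 h0
    exact IsSimple.non_abelian ℂ (L := g) inferInstance
  obtain ⟨c, hc⟩ := End.exists_eigenvalue e
  let I : LieIdeal ℂ g := ⟨e.eigenspace c, fun {X Y} hY => by
    have h1 := LinearMap.congr_fun (h X) Y
    have h2 : e Y = c • Y := End.mem_eigenspace_iff.1 hY
    refine End.mem_eigenspace_iff.2 ?_
    simpa [h2] using h1.symm⟩
  rcases IsSimple.eq_bot_or_eq_top I with h1 | h1
  · exact absurd (congrArg LieSubmodule.toSubmodule h1) hc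
  · exact ⟨c, LinearMap.ext fun Y => End.mem_eigenspace_iff.1
      (show Y ∈ I from h1 ▸ LieSubmodule.mem_top Y)⟩

theorem cent {g : Type} [LieRing g] [LieAlgebra ℂ g] [Module.Finite ℂ g] [IsSimple ℂ g]
    {h : Submodule ℝ g} {G : Type} [Group G] [TopologicalSpace G] [IsTopologicalGroup G]
    {π : G →* End ℂ g} (hs : Submodule.span ℂ (h : Set g) = ⊤)
    (hn : ∃ X ∈ h, ¬ killingForm ℂ g X X ≤ 0) (hc : Continuous fun a => mat (π a))
    (he : ∀ X ∈ h, ∃ a, mat (π a) = exp (mat (ad ℂ g X))) {Γ : Subgroup G} [CompactSpace (G ⧸ Γ)]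
    (Δ : Subgroup Γ) [Δ.FiniteIndex] {e : End ℂ g} (hd : ∀ δ ∈ Δ, π δ.1 * e = e * π δ.1) :
    ∃ c : ℂ, e = c • 1 := by
  let A₀ : g →ₗ[ℂ] End ℂ g := ⟨⟨fun X => ad ℂ g X, fun X Y => LinearMap.ext (add_lie X Y)⟩,
    fun c X => LinearMap.ext (smul_lie c X)⟩
  let A := (matE g).toLinearMap.comp A₀
  have hA0 : ∀ X, A X = matE g (ad ℂ g X) := fun _ => rfl
  have hA : ∀ X Y, A ⁅X, Y⁆ = A X * A Y - A Y * A X := fun X Y => by
    rw [hA0, hA0, hA0, ← map_mul (matE g), ← map_mul (matE g), ← map_sub (matE g)]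
    exact congrArg _ (LinearMap.ext (lie_lie X Y))
  have h1 : ∀ X ∈ h, ∀ t : ℝ, ∃ a, matH π a = exp (t • A X) := fun X hX t => by
    rw [← LinearMap.map_smul_of_tower]
    exact he _ (h.smul_mem t hX)
  have h2 : ∀ X, ∀ f ∈ bdd (matH π), A X * f - f * A X ∈ bdd (matH π) := fun X f hf => by
    have hX : X ∈ Submodule.span ℂ (h : Set g) := hs ▸ Submodule.mem_top
    induction hX using Submodule.span_induction with
    | mem X hX => exact bdd_lie hf (h1 X hX)
    | zero => simp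
    | add X Y _ _ h3 h4 =>
      rw [map_add, add_mul, mul_add, add_sub_add_comm]
      exact add_mem h3 h4
    | smul c X _ h3 =>
      rw [map_smul, smul_mul_assoc, mul_smul_comm, ← smul_sub]
      exact Submodule.smul_mem _ _ h3
  let I : LieIdeal ℂ g :=
    { carrier := {Y | ∀ f ∈ bdd (matH π), A Y * f = f * A Y}
      zero_mem' := fun f _ => by simp
      add_mem' := fun {X Y} h3 h4 f hf => by rw [map_add, add_mul, mul_add, h3 f hf, h4 f hf]
      smul_mem' := fun c X h3 f hf => by rw [map_smul, smul_mul_assoc, mul_smul_comm, h3 f hf]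
      lie_mem := fun {X Y} h3 f hf => by
        have h4 := h3 _ (h2 X f hf)
        have h5 := h3 f hf
        rw [hA, sub_mul, mul_sub, mul_assoc, h5, ← mul_assoc, ← mul_assoc f (A Y), ← h5,
          ← mul_assoc f, sub_eq_sub_iff_sub_eq_sub, ← sub_mul, ← h4, mul_sub, ← mul_assoc,
          ← mul_assoc] }
  obtain ⟨X, hX, h3⟩ := hn
  obtain ⟨c, Y, c0, Y0, h4⟩ := exists_eig h3
  have h5 : Y ∈ I := fun f hf => bdd_comm hf (h1 X hX) c0
    (by rw [← map_smul, ← h4, hA, add_sub_cancel]) (h2 Y f hf)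
  have h6 : I = ⊤ := (IsSimple.eq_bot_or_eq_top I).resolve_left fun h6 =>
    Y0 ((LieSubmodule.mem_bot _).1 (h6 ▸ h5))
  refine schur fun Z => (matE g).injective ?_
  rw [map_mul, map_mul]
  refine (show Z ∈ I from h6 ▸ LieSubmodule.mem_top Z) _ fun i j => ?_
  obtain ⟨C, hC⟩ := SU.bdd_orbit (matH π) hc Δ (e := matE g e) (fun δ hδ =>
    ((map_mul (matE g) _ _).symm.trans (congrArg (matE g) (hd δ hδ))).trans (map_mul _ _ _))
    (f := fun a => ‖a i j‖) (by fun_prop)
  exact ⟨C, hC⟩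

end Pool.Agent.Lib.MP_162bbe_gt.Ad
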