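import Pool.Agent.Lib.MP_162bbe_gt.Ad.Defs

/-! Base change from the form `L` to the complex algebra. -/

namespace Pool.Agent.Lib.MP_162bbe_gt.Ad

open Module LieAlgebra

variable {k L g : Type} [Field k] [LieRing L] [LieAlgebra k L] [LieRing g] [LieAlgebra ℂ g]
  {σ : k →+* ℂ}

/-- `φ` induces an isomorphism `ℂ ⊗ L → g`, and `ρ` is the base change of endomorphisms. -/
structure Frm [Module.Finite k L] [Module.Finite ℂ g] (φ : L →ₛₗ[σ] g)
    (ρ : End k L →+* End ℂ g) : Prop where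
  lie : ∀ x y, φ ⁅x, y⁆ = ⁅φ x, φ y⁆
  dim : finrank k L = finrank ℂ g
  ext : ∀ {T T' : End ℂ g}, (∀ y, T (φ y) = T' (φ y)) → T = T'
  inj : Function.Injective φ
  app : ∀ f y, ρ f (φ y) = φ (f y)
  alg : ∀ c, ρ (algebraMap k _ c) = algebraMap ℂ _ (σ c)
  char : ∀ f, (ρ f).charpoly = f.charpoly.map σ
  adj : ∀ x, ρ (ad k L x) = ad ℂ g (φ x)
  kil : ∀ x y, killingForm ℂ g (φ x) (φ y) = σ (killingForm k L x y)
  dual : ∀ l : Dual k L, ∃ l' : Dual ℂ g, ∀ y, l' (φ y) = σ (l y)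

variable [Module.Finite k L] [Module.Finite ℂ g] {φ : L →ₛₗ[σ] g}

theorem exists_frm (lie : ∀ x y, φ ⁅x, y⁆ = ⁅φ x, φ y⁆) (dim : finrank k L = finrank ℂ g)
    (span : Submodule.span ℂ (Set.range φ) = ⊤) : ∃ ρ, Frm φ ρ := by
  let β := finBasis k L
  have hφ : ∀ y, φ y = ∑ j, σ (β.repr y j) • φ (β j) := fun y => by
    conv_lhs => rw [← β.sum_repr y, map_sum]
    simp only [LinearMap.map_smulₛₗ]
  have hsp : ⊤ ≤ Submodule.span ℂ (Set.range fun j => φ (β j)) := by
    rw [← span, Submodule.span_le]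
    rintro _ ⟨y, rfl⟩
    rw [hφ]
    exact Submodule.sum_mem _ fun j _ => Submodule.smul_mem _ _ (Submodule.subset_span ⟨j, rfl⟩)
  let b : Basis (Fin (finrank k L)) ℂ g :=
    basisOfTopLeSpanOfCardEqFinrank _ hsp (by rw [Fintype.card_fin, dim])
  have hb : ∀ j, b j = φ (β j) := fun j => by simp [b]
  have hr : ∀ y j, b.repr (φ y) j = σ (β.repr y j) := fun y j => by
    rw [hφ]
    simp only [← hb]
    exact congrFun (b.repr_sum_self _) j
  have ext : ∀ {T T' : End ℂ g}, (∀ y, T (φ y) = T' (φ y)) → T = T' := fun h =>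
    b.ext fun j => by rw [hb, h]
  let ρ : End k L →+* End ℂ g := (Matrix.toLinAlgEquiv b).toRingEquiv.toRingHom.comp
    (σ.mapMatrix.comp (LinearMap.toMatrixAlgEquiv β).toRingEquiv.toRingHom)
  have hm : ∀ f, LinearMap.toMatrix b b (ρ f) = (LinearMap.toMatrix β β f).map σ := fun f =>
    LinearMap.toMatrix_toLin b b _
  have app : ∀ f y, ρ f (φ y) = φ (f y) := fun f y => b.ext_elem fun j => by
    rw [← LinearMap.toMatrix_mulVec_repr b b, hm, hr, ← LinearMap.toMatrix_mulVec_repr β β,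
      RingHom.map_mulVec]
    exact congrArg (fun v => Matrix.mulVec _ v j) (funext (hr y))
  have adj : ∀ x, ρ (ad k L x) = ad ℂ g (φ x) := fun x => ext fun y => by
    rw [app, ad_apply, ad_apply, lie]
  refine ⟨ρ, lie, dim, ext, fun x y h => β.ext_elem fun j => σ.injective ?_, app,
    fun c => ext fun y => ?_, fun f => ?_, adj, fun x y => ?_, fun l => ?_⟩
  · rw [← hr, ← hr, h]
  · rw [app, Module.algebraMap_end_apply, Module.algebraMap_end_apply, LinearMap.map_smulₛₗ]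
  · rw [← LinearMap.charpoly_toMatrix _ b, ← LinearMap.charpoly_toMatrix _ β, hm,
      Matrix.charpoly_map]
  · rw [killingForm_apply_apply, killingForm_apply_apply, ← adj, ← adj, ← End.mul_eq_comp,
      ← End.mul_eq_comp, ← map_mul, LinearMap.trace_eq_matrix_trace ℂ b,
      LinearMap.trace_eq_matrix_trace k β, hm, AddMonoidHom.map_trace]
  · refine ⟨b.constr ℂ fun j => σ (l (β j)), fun y => ?_⟩
    conv_rhs => rw [← β.sum_repr y]
    rw [hφ]
    simp only [← hb, map_sum, map_smul, Basis.constr_basis, smul_eq_mul, map_mul]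

theorem Frm.killing [IsKilling ℂ g] {ρ : End k L →+* End ℂ g} (h : Frm φ ρ) : IsKilling k L := by
  refine ⟨eq_bot_iff.2 fun x hx => ?_⟩
  rw [LieIdeal.mem_killingCompl] at hx
  rw [LieSubmodule.mem_bot]
  apply h.inj
  rw [map_zero, ← Submodule.mem_bot ℂ, ← IsKilling.ker_killingForm_eq_bot ℂ g, LinearMap.mem_ker]
  by_contra h0
  obtain ⟨v, hv⟩ : ∃ v, killingForm ℂ g (φ x) v ≠ 0 := by
    by_contra! h1
    exact h0 (LinearMap.ext h1)
  by_cases h1 : φ x = 0
  · simp [h1] at h0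
  have h2 := h.ext (T := (killingForm ℂ g (φ x)).smulRight (φ x)) (T' := 0) fun y => by
    rw [LinearMap.smulRight_apply, h.kil, LieModule.traceForm_comm, hx y (LieSubmodule.mem_top y),
      map_zero, zero_smul, LinearMap.zero_apply]
  exact smul_ne_zero hv h1 (LinearMap.congr_fun h2 v)

theorem Frm.exists_lie_ne [IsSimple ℂ g] {ρ : End k L →+* End ℂ g} (h : Frm φ ρ) :
    ∃ x y : L, ⁅x, y⁆ ≠ 0 := by
  by_contra! h0
  refine IsSimple.non_abelian ℂ (L := g) ⟨fun X Y => ?_⟩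
  have h1 : ∀ x, ad ℂ g (φ x) = 0 := fun x => h.ext fun y => by
    rw [ad_apply, ← h.lie, h0, map_zero, LinearMap.zero_apply]
  have h2 : ad ℂ g X = 0 := h.ext fun y => by
    rw [ad_apply, ← lie_skew, ← ad_apply ℂ, h1]
    simp
  exact LinearMap.congr_fun h2 Y

end Pool.Agent.Lib.MP_162bbe_gt.Ad
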