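import Pool.Agent.Lib.MP_162bbe_gt.Ad.Den
import Pool.Agent.Lib.MP_162bbe_gt.Ad.Rho
import Pool.Agent.Lib.MP_162bbe_gt.Ad.Alg

/-! The form `L` of a cocompact arithmetic subgroup is anisotropic. -/

namespace Pool.Agent.Lib.MP_162bbe_gt.Ad

open Module LieAlgebra NumberField

theorem cover {G : Type} [Group G] [TopologicalSpace G] [IsTopologicalGroup G] (Γ : Subgroup G)
    [CompactSpace (G ⧸ Γ)] {f : G → ℝ} (hf : Continuous f) :
    ∃ C : ℕ, ∀ a, ∃ γ ∈ Γ, f (a * γ) < C := by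
  obtain ⟨m, h⟩ := isCompact_univ.elim_directed_cover
    (fun m : ℕ => ((↑) : G → G ⧸ Γ) '' {u | f u < m})
    (fun m => QuotientGroup.isOpenMap_coe _ (isOpen_lt hf continuous_const)) (fun q _ => by
      obtain ⟨m, hm⟩ := exists_nat_gt (f q.out)
      exact Set.mem_iUnion.2 ⟨m, q.out, hm, q.out_eq⟩)
    (Monotone.directed_le fun a b hab => Set.image_mono fun u hu =>
      LT.lt.trans_le (b := (a : ℝ)) hu (Nat.cast_le.2 hab))
  refine ⟨m, fun a => ?_⟩
  obtain ⟨u, hu, e⟩ := h (Set.mem_univ (a : G ⧸ Γ))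
  exact ⟨_, QuotientGroup.eq.1 e.symm, by rwa [mul_inv_cancel_left]⟩

theorem denom {k L ι : Type} [Field k] [NumberField k] [AddCommGroup L] [Module k L]
    {Λ : AddSubgroup L} (fg : Λ.FG) (full : Submodule.span k (Λ : Set L) = ⊤) {f : ι → End k L}
    (hf : ∀ i, ∀ x ∈ Λ, f i x ∈ Λ) (z : L) (l : Dual k L) :
    ∃ N : ℤ, N ≠ 0 ∧ ∀ i, IsIntegral ℤ (N • l (f i z)) := by
  classical
  have hz : z ∈ Submodule.span k (Λ : Set L) := full ▸ Submodule.mem_top
  induction hz using Submodule.span_induction generalizing l with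
  | mem z hz =>
    obtain ⟨T, hT⟩ := fg
    obtain ⟨N, h0, hN⟩ := exists_integral_multiples ℤ ℚ (T.image l)
    refine ⟨N, h0, fun i => ?_⟩
    have h1 := hf i z hz
    rw [← hT] at h1
    generalize f i z = u at h1
    induction h1 using AddSubgroup.closure_induction with
    | mem w hw => exact hN _ (Finset.mem_image_of_mem l hw)
    | zero => simpa using isIntegral_zero
    | add v w _ _ h2 h3 => simpa using h2.add h3
    | neg v _ h2 => simpa using h2.neg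
  | zero => exact ⟨1, one_ne_zero, fun i => by simpa using isIntegral_zero⟩
  | add v w _ _ h1 h2 =>
    obtain ⟨M, M0, hM⟩ := h1 l
    obtain ⟨N, N0, hN⟩ := h2 l
    refine ⟨M * N, mul_ne_zero M0 N0, fun i => ?_⟩
    rw [map_add, map_add, smul_add, mul_smul, mul_smul, smul_comm M N]
    exact ((hM i).zsmul N).add (smul_comm M N (l (f i w)) ▸ (hN i).zsmul M)
  | smul c v _ h1 => simpa using h1 (c • l)

variable {r : ℕ} {g : Fin r → Type} [∀ i, LieRing (g i)] [∀ i, LieAlgebra ℂ (g i)]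
  [∀ i, Module.Finite ℂ (g i)] {G : Type} [Group G] [TopologicalSpace G]
  [IsTopologicalGroup G] {h : ∀ i, Submodule ℝ (g i)} {π : ∀ i, G →* End ℂ (g i)} {Γ : Subgroup G}
  {k L : Type} [Field k] [NumberField k] [LieRing L] [LieAlgebra k L]

theorem aniso (hA : Adj h π) [CompactSpace (G ⧸ Γ)] (X : Arith h π Γ k L) [Module.Finite k L]
    [IsKilling k L] {ρ : ∀ i, End k L →+* End ℂ (g i)} (hρ : ∀ i, Frm (X.φ i) (ρ i))
    {F : Γ →* End k L} (hF : ∀ i γ, ρ i (F γ) = π i γ.1)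
    (hΛ : ∀ δ ∈ X.Δ, ∀ x ∈ X.Λ, F δ x ∈ X.Λ) {x y : L} (hy : ⁅y, x⁆ = x) : x = 0 := by
  by_contra hx
  have h0 : killingForm k L x x = 0 := by
    conv_lhs => enter [1, 2]; rw [← hy]
    rw [LieModule.traceForm_apply_lie_apply, lie_self, map_zero]
  have hS : ∀ w : InfinitePlace k, ∃ i, w = InfinitePlace.mk (X.σ i) := fun w => by
    by_contra! h1
    exact hx (defn (X.neg w.embedding (by rwa [w.mk_embedding])) h0)
  have := X.idx
  have : Fintype (Γ ⧸ X.Δ) := Fintype.ofFinite _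
  let β := finBasis k L
  choose N N0 hN using fun (p : (Γ ⧸ X.Δ) × Fin (finrank k L)) =>
    denom X.fg X.full (f := fun δ : X.Δ => F δ.1) (fun δ => hΛ δ.1 δ.2) (F p.1.out⁻¹ x) (β.coord p.2)
  have hint : ∀ γ j, IsIntegral ℤ ((∏ p, N p) • β.coord j (F γ x)) := fun γ j => by
    obtain ⟨δ, hδ⟩ := QuotientGroup.mk_out_eq_mul X.Δ γ⁻¹
    obtain ⟨c, hc⟩ := Finset.dvd_prod_of_mem N (Finset.mem_univ (QuotientGroup.mk γ⁻¹, j))
    have h1 := (hN (QuotientGroup.mk γ⁻¹, j) δ).zsmul c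
    rw [← End.mul_apply, ← map_mul, hδ, mul_inv_rev, mul_inv_cancel_left, inv_inv] at h1
    rwa [hc, mul_comm, mul_smul]
  choose l hl using fun i j => (hρ i).dual (β.coord j)
  obtain ⟨C, hC⟩ := cover Γ (f := fun u => ∑ i, ∑ j, ‖l i j (π i u⁻¹ (X.φ i x))‖)
    (continuous_finsetSum _ fun i _ => continuous_finsetSum _ fun j _ => by
      have h1 := LinearMap.continuous_of_finiteDimensional ((l i j).comp
        ((LinearMap.applyₗ (X.φ i x)).comp (matE (g i)).symm.toLinearMap))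
      refine ((h1.comp ((hA.fac i).cont)).comp continuous_inv).norm.congr fun u => ?_
      exact congrArg (fun T : End ℂ (g i) => ‖l i j (T (X.φ i x))‖) ((matE _).symm_apply_apply _))
  have hP : (0 : ℝ) < |((∏ p, N p : ℤ) : ℝ)| * C + 1 := by positivity
  obtain ⟨a, ha⟩ := hA.exp fun i => Real.log (|((∏ p, N p : ℤ) : ℝ)| * C + 1)⁻¹ • ⟨_, X.mem i y⟩
  obtain ⟨γ, hγ, h1⟩ := hC a
  have h2 : ∀ i, π i γ⁻¹ (X.φ i x) = ((|((∏ p, N p : ℤ) : ℝ)| * C + 1)⁻¹ : ℝ) •
      π i (a * γ)⁻¹ (X.φ i x) := fun i => by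
    have h3 := exp_vec (ha i) (v := X.φ i x)
      (c := (Real.log (|((∏ p, N p : ℤ) : ℝ)| * C + 1)⁻¹ : ℝ)) (by
        rw [ad_apply, Submodule.coe_smul, ← Complex.coe_smul, smul_lie, ← X.lie, hy])
    rw [← Complex.ofReal_exp, Real.exp_log (inv_pos.2 hP)] at h3
    rw [← Complex.coe_smul, ← map_smul, ← h3, ← End.mul_apply, ← map_mul, mul_inv_rev,
      inv_mul_cancel_right]
  have h3 : ∀ j, β.coord j (F ⟨γ, hγ⟩⁻¹ x) = 0 := fun j => by
    by_contra h3
    have h4 : ∀ w : InfinitePlace k, w ((∏ p, N p) • β.coord j (F ⟨γ, hγ⟩⁻¹ x)) < 1 := fun w => by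
      obtain ⟨i, rfl⟩ := hS w
      have h5 : ‖l i j (π i (a * γ)⁻¹ (X.φ i x))‖ ≤ C :=
        ((Finset.single_le_sum (f := fun j => ‖l i j (π i (a * γ)⁻¹ (X.φ i x))‖)
          (fun _ _ => norm_nonneg _) (Finset.mem_univ j)).trans (Finset.single_le_sum
          (f := fun i => ∑ j, ‖l i j (π i (a * γ)⁻¹ (X.φ i x))‖)
          (fun _ _ => by positivity) (Finset.mem_univ i))).trans h1.le
      rw [InfinitePlace.apply, map_zsmul, ← hl, ← (hρ i).app, hF, Subgroup.coe_inv, h2,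
        LinearMap.map_smul_of_tower, norm_smul, norm_smul, ← Int.norm_cast_real, Real.norm_eq_abs,
        Real.norm_of_nonneg (inv_pos.2 hP).le, mul_left_comm, inv_mul_lt_iff₀ hP, mul_one]
      exact (mul_le_mul_of_nonneg_left h5 (abs_nonneg _)).trans_lt (lt_add_one _)
    obtain ⟨w⟩ : Nonempty (InfinitePlace k) := inferInstance
    exact (h4 w).not_ge (InfinitePlace.one_le_of_lt_one (a := ⟨_, hint _ j⟩) (fun h5 =>
      smul_ne_zero (Finset.prod_ne_zero_iff.2 fun p _ => N0 p) h3 (congrArg Subtype.val h5))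
      fun z _ => h4 z)
  apply hx
  rw [← End.one_apply (R := k) x, ← map_one F, ← mul_inv_cancel (⟨γ, hγ⟩ : Γ), map_mul,
    End.mul_apply, β.forall_coord_eq_zero_iff.1 h3, map_zero]

end Pool.Agent.Lib.MP_162bbe_gt.Ad
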