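import Pool.Agent.Lib.MP_162bbe_gt.Ad.Den
import Pool.Agent.Lib.MP_162bbe_gt.Ad.Rho
import Pool.Agent.Lib.MP_162bbe_gt.SU.Char

/-! Every element of the lattice comes from an automorphism of `L`. -/

namespace Pool.Agent.Lib.MP_162bbe_gt.Ad

open Module LieAlgebra

variable {r : ℕ} {g : Fin r → Type} [∀ i, LieRing (g i)] [∀ i, LieAlgebra ℂ (g i)]
  [∀ i, Module.Finite ℂ (g i)] [∀ i, IsSimple ℂ (g i)] {G : Type} [Group G] [TopologicalSpace G]
  [IsTopologicalGroup G] {h : ∀ i, Submodule ℝ (g i)} {π : ∀ i, G →* End ℂ (g i)} {Γ : Subgroup G}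
  {k L : Type} [Field k] [NumberField k] [LieRing L] [LieAlgebra k L]

omit [∀ i, Module.Finite ℂ (g i)] [∀ i, IsSimple ℂ (g i)] [TopologicalSpace G]
  [IsTopologicalGroup G] [NumberField k] in
theorem Arith.finite (X : Arith h π Γ k L) : Module.Finite k L := by
  obtain ⟨S, hS⟩ := X.fg
  refine ⟨⟨S, top_le_iff.1 ?_⟩⟩
  rw [← X.full, Submodule.span_le, ← hS]
  exact (AddSubgroup.closure_le (Submodule.span k (S : Set L)).toAddSubgroup).2
    Submodule.subset_span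

theorem lift (hA : Adj h π) [CompactSpace (G ⧸ Γ)] (X : Arith h π Γ k L) [Module.Finite k L]
    {ρ : ∀ i, End k L →+* End ℂ (g i)} (hρ : ∀ i, Frm (X.φ i) (ρ i)) (i₀ : Fin r) :
    ∃ F : Γ →* End k L, (∀ i γ, ρ i (F γ) = π i γ.1) ∧ (∀ γ x y, F γ ⁅x, y⁆ = ⁅F γ x, F γ y⁆) ∧
      ∀ δ ∈ X.Δ, ∀ x ∈ X.Λ, F δ x ∈ X.Λ := by
  have := X.idx
  have hinj : Function.Injective (ρ i₀) := fun f f' hf => LinearMap.ext fun y =>
    (hρ i₀).inj (by rw [← (hρ i₀).app, hf, (hρ i₀).app])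
  have h1 : ∀ δ ∈ X.Δ, ∃ f : End k L, ∀ i, ρ i f = π i δ.1 := fun δ hδ => by
    have h2 : ∀ x, ∃ y, ∀ i, π i δ.1 (X.φ i x) = X.φ i y := fun x => by
      have hx : x ∈ Submodule.span k (X.Λ : Set L) := X.full ▸ Submodule.mem_top
      induction hx using Submodule.span_induction with
      | mem x hx => exact (X.inv δ hδ x hx).imp fun y hy => hy.2
      | zero => exact ⟨0, fun i => by rw [map_zero, map_zero]⟩
      | add x x' _ _ hx hx' =>
        obtain ⟨y, hy⟩ := hx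
        obtain ⟨y', hy'⟩ := hx'
        exact ⟨y + y', fun i => by rw [map_add, map_add, map_add, hy, hy']⟩
      | smul c x _ hx =>
        obtain ⟨y, hy⟩ := hx
        exact ⟨c • y, fun i => by rw [map_smulₛₗ, map_smul, map_smulₛₗ, hy]⟩
    choose f hf using h2
    exact ⟨⟨⟨f, fun x y => (hρ i₀).inj (by rw [map_add, ← hf, ← hf, ← hf, map_add, map_add])⟩,
      fun c x => (hρ i₀).inj (by
        rw [RingHom.id_apply, map_smulₛₗ, ← hf, ← hf, map_smulₛₗ, map_smul])⟩,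
      fun i => (hρ i).ext fun y => ((hρ i).app _ y).trans (hf y i).symm⟩
  choose! f hf using h1
  obtain ⟨y, z, hyz⟩ := (hρ i₀).exists_lie_ne
  have : Nontrivial L := nontrivial_of_ne _ _ hyz
  have h2 : ∀ γ : Γ, ∃ x : End k L, ∀ i, ρ i x = π i γ.1 := fun γ => by
    have h3 : ∀ δ : X.Δ.normalCore, γ * δ.1 * γ⁻¹ ∈ X.Δ := fun δ =>
      X.Δ.normalCore_le (X.Δ.normalCore_normal.conj_mem _ δ.2 γ)
    have hinv : ∀ i, π i γ.1⁻¹ * π i γ.1 = 1 := fun i => by
      rw [← map_mul, inv_mul_cancel, map_one]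
    have hn : 0 < finrank ℂ (g i₀) := X.dim i₀ ▸ finrank_pos
    have : Nonempty (Fin (finrank ℂ (g i₀))) := ⟨⟨0, hn⟩⟩
    obtain ⟨x, hx0, hx⟩ := SU.desc (D := k) (d := 1) ⟨hn, by simp, mul_one _⟩
      (LinearMap.toMatrixAlgEquiv (finBasisOfFinrankEq k L (X.dim i₀))) (s := X.σ i₀)
      (ρ := (matE (g i₀) : _ →+* _).comp (ρ i₀))
      (fun c => (congrArg (matE (g i₀)) ((hρ i₀).alg c)).trans ((matE (g i₀)).commutes _))
      (fun δ : X.Δ.normalCore => f δ.1) (fun δ => f (γ * δ.1 * γ⁻¹)) (g := matH (π i₀) γ.1)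
      (fun h0 => one_ne_zero (by
        rw [← map_one (matH (π i₀)), ← inv_mul_cancel γ.1, map_mul, h0, mul_zero])) fun δ => by
        change matE _ (π i₀ γ.1) * matE _ (ρ i₀ _) = matE _ (ρ i₀ _) * matE _ (π i₀ γ.1)
        rw [hf _ (X.Δ.normalCore_le δ.2), hf _ (h3 δ), ← map_mul, ← map_mul, ← map_mul, ← map_mul]
        simp
    have h4 : ∀ i, ∃ c : ℂ, c ≠ 0 ∧ ρ i x = c • π i γ.1 := fun i => by
      obtain ⟨c, hc⟩ := cent ((hA.fac i).span) ((hA.fac i).nc) ((hA.fac i).cont) (fun Y hY => by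
          classical
          obtain ⟨a, ha⟩ := hA.exp (Pi.single i ⟨Y, hY⟩)
          exact ⟨a, by rw [ha i, Pi.single_eq_same]⟩)
        X.Δ.normalCore (e := π i γ.1⁻¹ * ρ i x) fun δ hδ => by
          have h5 := congrArg (ρ i) (hx ⟨δ, hδ⟩)
          rw [map_mul, map_mul, hf _ (X.Δ.normalCore_le hδ), hf _ (h3 ⟨δ, hδ⟩)] at h5
          rw [mul_assoc, h5, ← mul_assoc, ← mul_assoc, ← map_mul, ← map_mul]
          simp [mul_assoc]
      have h5 : ρ i x = c • π i γ.1 := by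
        have h6 := congrArg (π i γ.1 * ·) hc
        simpa only [← mul_assoc, ← map_mul, mul_inv_cancel, map_one, one_mul, mul_smul_comm,
          mul_one] using h6
      refine ⟨c, fun h0 => hx0 (LinearMap.ext fun w => (hρ i).inj ?_), h5⟩
      rw [← (hρ i).app, h5, h0, zero_smul, LinearMap.zero_apply, LinearMap.zero_apply, map_zero]
    choose c hc0 hc using h4
    have h5 : ∀ i w, X.φ i (x w) = c i • π i γ.1 (X.φ i w) := fun i w => by
      rw [← (hρ i).app, hc, LinearMap.smul_apply]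
    have h6 : x ⁅y, z⁆ ≠ 0 := fun h0 => hyz ((hρ i₀).inj (by
      have h7 := h5 i₀ ⁅y, z⁆
      rw [h0, map_zero, eq_comm, smul_eq_zero_iff_right (hc0 i₀)] at h7
      rw [← Module.End.one_apply (R := ℂ) (X.φ i₀ ⁅y, z⁆), ← hinv, Module.End.mul_apply, h7,
        map_zero, map_zero]))
    obtain ⟨l, hl⟩ := Module.Projective.exists_dual_eq_one k h6
    have h7 : ∀ i, X.σ i (l ⁅x y, x z⁆) = c i := fun i => by
      obtain ⟨l', hl'⟩ := (hρ i).dual l
      rw [← hl', X.lie, h5, h5, smul_lie, lie_smul, ← (hA.fac _).aut, ← X.lie, ← h5, map_smul, hl', hl,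
        map_one, smul_eq_mul, mul_one]
    refine ⟨algebraMap k _ (l ⁅x y, x z⁆)⁻¹ * x, fun i => ?_⟩
    rw [map_mul, (hρ i).alg, map_inv₀, h7, hc, ← Algebra.smul_def, smul_smul,
      inv_mul_cancel₀ (hc0 i), one_smul]
  choose F hF using h2
  have h3 : ∀ γ w, X.φ i₀ (F γ w) = π i₀ γ.1 (X.φ i₀ w) := fun γ w => by rw [← (hρ i₀).app, hF]
  refine ⟨⟨⟨F, hinj (by rw [hF, map_one, OneMemClass.coe_one, map_one])⟩, fun a b =>
    hinj (by rw [map_mul, hF, hF, hF, Subgroup.coe_mul, map_mul])⟩, fun i γ => hF γ i,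
    fun γ a b => (hρ i₀).inj ?_, fun δ hδ x hx => ?_⟩
  · exact (h3 γ _).trans (by rw [X.lie, (hA.fac _).aut, ← h3, ← h3, ← X.lie]; rfl)
  · obtain ⟨w, hw, h4⟩ := X.inv δ hδ x hx
    exact (hρ i₀).inj ((h3 δ x).trans (h4 i₀)) ▸ hw

omit [NumberField k] in
open Polynomial in
theorem integral [Module.Finite k L] (s : k →+* ℂ) {Λ : AddSubgroup L} (fg : Λ.FG)
    (full : Submodule.span k (Λ : Set L) = ⊤) {f : End k L} {N : ℕ} (hN : 0 < N)
    (hf : ∀ x ∈ Λ, (f ^ N) x ∈ Λ) (j : ℕ) : IsIntegral ℤ (f.charpoly.coeff j) := by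
  have : Module.Finite ℤ Λ.toIntSubmodule :=
    Module.Finite.iff_fg.2 ((Submodule.fg_iff_addSubgroup_fg _).2 fg)
  let u : End ℤ Λ.toIntSubmodule := ((f ^ N).restrictScalars ℤ).restrict hf
  obtain ⟨p, hp, h1⟩ := LinearMap.exists_monic_and_aeval_eq_zero ℤ u
  have h2 : ∀ (q : ℤ[X]) (x : Λ.toIntSubmodule), (aeval u q x).1 = aeval (f ^ N) q x.1 := fun q => by
    induction q using Polynomial.induction_on with
    | C a => intro x; simp
    | add p q hp hq => intro x; simp [hp, hq]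
    | monomial n a ih =>
      intro x
      rw [pow_succ, ← mul_assoc, map_mul, map_mul _ _ X, aeval_X, aeval_X, Module.End.mul_apply,
        Module.End.mul_apply, ih]
      rfl
  have h3 : IsIntegral ℤ f := IsIntegral.of_pow hN ⟨p, hp, LinearMap.ext_on full fun x hx =>
    (h2 p ⟨x, hx⟩).symm.trans (by rw [h1]; rfl)⟩
  have hm := f.charpoly_monic
  refine (isIntegral_algHom_iff s.toIntAlgHom s.injective).1 ?_
  have h4 : s.toIntAlgHom (f.charpoly.coeff j) = (f.charpoly.map s).coeff j := (coeff_map _ _).symm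
  rw [h4]
  refine isIntegral_coeff_of_factors _ (by rw [(hm.map s).leadingCoeff]; exact isIntegral_one)
    (IsAlgClosed.splits _) (fun w hw => ?_) j
  let φ := s.mapMatrix.comp (LinearMap.toMatrixAlgEquiv (finBasis k L)).toRingEquiv.toRingHom
  have h5 : w ∈ spectrum ℂ (φ f) := by
    rw [← LinearMap.charpoly_toMatrix f (finBasis k L), ← Matrix.charpoly_map] at hw
    exact Matrix.mem_spectrum_iff_isRoot_charpoly.2 hw
  obtain ⟨q, hq, h6⟩ := h3.map φ.toIntAlgHom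
  have h7 := spectrum.subset_polynomial_aeval (φ f) (q.map (algebraMap ℤ ℂ)) ⟨w, h5, rfl⟩
  have h8 : aeval (φ f) q = 0 := h6
  have : Nontrivial (Matrix (Fin (finrank k L)) (Fin (finrank k L)) ℂ) :=
    not_subsingleton_iff_nontrivial.1 fun _ => h5 (isUnit_of_subsingleton _)
  rw [aeval_map_algebraMap, h8, spectrum.zero_eq, Set.mem_singleton_iff] at h7
  exact ⟨q, hq, (eval_map _ _).symm.trans h7⟩

end Pool.Agent.Lib.MP_162bbe_gt.Ad
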