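import Mathlib

/-! A unipotent automorphism of a semisimple algebra gives a split element. -/

namespace Pool.Agent.Lib.MP_162bbe_gt.Ad

open Module LieAlgebra Polynomial

theorem nil_of_trace {k V : Type} [Field k] [CharZero k] [AddCommGroup V] [Module k V]
    [Module.Finite k V] {A : End k V} (h : ∀ j, LinearMap.trace k V (A ^ j * A) = 0) :
    IsNilpotent A := by
  obtain ⟨a, q, hq, hχ⟩ := WfDvdMonoid.max_power_factor A.charpoly_monic.ne_zero irreducible_X
  obtain ⟨u, v, huv⟩ : IsCoprime (X ^ (a + 1)) q :=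
    (irreducible_X.coprime_iff_not_dvd.2 hq).pow_left
  have h0 : ∀ w, aeval A (w * (X ^ a * q)) = 0 := fun w => by
    rw [← hχ, map_mul, A.aeval_self_charpoly, mul_zero]
  have h1 : IsIdempotentElem (aeval A (u * X ^ (a + 1))) := by
    rw [IsIdempotentElem, ← map_mul, ← sub_eq_zero, ← map_sub, ← h0 (-(u * X * v))]
    congr 1
    linear_combination (u * X ^ (a + 1)) * huv
  have h2 : LinearMap.trace k V (aeval A (u * X ^ (a + 1))) = 0 := by
    rw [map_mul, aeval_eq_sum_range, Finset.sum_mul, map_sum]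
    refine Finset.sum_eq_zero fun j _ => ?_
    rw [map_pow, aeval_X, smul_mul_assoc, map_smul, pow_succ, ← mul_assoc, ← pow_add, h, smul_zero]
  have h3 := (LinearMap.IsIdempotentElem.isProj_range _ h1).trace
  rw [h2, eq_comm, Nat.cast_eq_zero, Submodule.finrank_eq_zero, LinearMap.range_eq_bot] at h3
  refine ⟨a, ?_⟩
  have h4 : (X ^ a : k[X]) = X ^ a * (u * X ^ (a + 1)) + v * (X ^ a * q) := by
    linear_combination (-X ^ a) * huv
  have h5 := congrArg (aeval A) h4
  rwa [map_add, h0, map_mul, h3, mul_zero, add_zero, map_pow, aeval_X] at h5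

variable {k L : Type} [Field k] [CharZero k] [LieRing L] [LieAlgebra k L] [Module.Finite k L]
  [IsKilling k L]

omit [CharZero k] in
theorem split_of_nil {x : L} (hx : IsNilpotent (ad k L x)) : ∃ y : L, ⁅y, x⁆ = x := by
  by_contra h
  obtain ⟨l, h1, h2⟩ := (LinearMap.range (ad k L x)).exists_le_ker_of_notMem (v := x)
    fun ⟨y, hy⟩ => h ⟨-y, by rw [neg_lie, lie_skew]; exact hy⟩
  have hn := IsKilling.killingForm_nondegenerate k L
  obtain ⟨z, rfl⟩ := ((killingForm k L).toDual hn).surjective l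
  have h3 : ⁅z, x⁆ = 0 := hn.1 _ fun w => by
    rw [LieModule.traceForm_apply_lie_apply]
    exact h2 ⟨w, rfl⟩
  have h4 : Commute (ad k L z) (ad k L x) := LinearMap.ext fun w => by
    simpa [h3, sub_eq_zero] using (lie_lie z x w).symm
  exact h1 (LinearMap.isNilpotent_trace_of_isNilpotent (h4.isNilpotent_mul_left hx)).eq_zero

theorem unip {f : End k L} (hf : ∀ x y, f ⁅x, y⁆ = ⁅f x, f y⁆) (hn : IsNilpotent (f - 1))
    (h1 : f ≠ 1) : ∃ X H : L, X ≠ 0 ∧ ⁅H, X⁆ = X := by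
  classical
  obtain ⟨u, rfl⟩ : IsUnit f := by simpa using hn.isUnit_add_one
  replace hn : ∃ n, (u.1 - 1) ^ n = 0 := hn
  have h2 : 1 < Nat.find hn := by
    rw [Nat.lt_find_iff]
    intro j hj h3
    interval_cases j
    · exact h1 (by rw [← mul_one u.1, ← pow_zero (u.1 - 1), h3, mul_zero])
    · exact h1 (by rwa [pow_one, sub_eq_zero] at h3)
  obtain ⟨s, hs⟩ : ∃ s, Nat.find hn = s + 2 := ⟨Nat.find hn - 2, by omega⟩
  obtain ⟨Z, hZ⟩ : ∃ Z, ((u.1 - 1) ^ (s + 1)) Z ≠ 0 := by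
    by_contra! h3
    exact Nat.find_min hn (m := s + 1) (by omega) (LinearMap.ext h3)
  obtain ⟨x, hx⟩ : ∃ x, x = ((u.1 - 1) ^ (s + 1)) Z := ⟨_, rfl⟩
  obtain ⟨y, hy⟩ : ∃ y, x = u.1 y - y := ⟨((u.1 - 1) ^ s) Z, by rw [hx, pow_succ']; rfl⟩
  have h3 : u.1 x = x := by
    have h4 := LinearMap.congr_fun (hs ▸ Nat.find_spec hn) Z
    rw [pow_succ', End.mul_apply, ← hx] at h4
    exact sub_eq_zero.1 h4
  have h4 : ∀ w, ad k L (u.1 w) = u * ad k L w * u⁻¹ := fun w => by
    rw [Units.eq_mul_inv_iff_mul_eq]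
    exact LinearMap.ext fun v => (hf w v).symm
  have h5 : Commute (ad k L x) u.1 := by
    have h6 := h4 x
    rwa [h3, Units.eq_mul_inv_iff_mul_eq] at h6
  obtain ⟨H, hH⟩ := split_of_nil (x := x) (nil_of_trace fun j => by
    have h6 : ad k L x = u * ad k L y * u⁻¹ - ad k L y := by
      rw [← h4, hy]
      exact LinearMap.ext (sub_lie _ _)
    conv_lhs => enter [2, 2]; rw [h6]
    rw [mul_sub, map_sub, ← mul_assoc, ← mul_assoc, (h5.pow_left j).eq, LinearMap.trace_mul_comm,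
      ← mul_assoc, ← mul_assoc, Units.inv_mul, one_mul, sub_self])
  exact ⟨x, H, hx ▸ hZ, hH⟩

end Pool.Agent.Lib.MP_162bbe_gt.Ad
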